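import Pool.Agent.R32.TG.Final

/-!
# `MP_3f6a1f_co`, Q1: the thrackle genus is linear in the number of edges (yes, `C = 4`)

The definitions (`CanBeThrackled`, `thrackleGenus` and what they use) are in
`Pool/Agent/R32/TG/Defs.lean`.
-/

namespace Pool.Agent.Results.MP_3f6a1f_co.LinearGenus

open Pool.Agent.R32.TG

/-- Every finite simple graph `G` with `m` edges can be thrackled on the compact orientable surface
of genus `4 m`; hence its thrackle genus is at most `4 m`. -/
theorem result : ∃ C : ℕ, C = 4 ∧ ∀ (V : Type*) [Finite V] (G : SimpleGraph V),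
    CanBeThrackled G (C * G.edgeSet.ncard) ∧ thrackleGenus G ≤ C * G.edgeSet.ncard :=
  ⟨4, rfl, fun _ _ G => ⟨main G, Nat.sInf_le (main G)⟩⟩

end Pool.Agent.Results.MP_3f6a1f_co.LinearGenus
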